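import Pool.Agent.N929.EX.Cor2
import Pool.Agent.N929.EY.Stm

/-! Contact probabilities of the planar self-avoiding walk (task CT of project EY). -/

set_option autoImplicit false
set_option linter.unusedVariables false

namespace Pool.Agent.N340.EY

open Pool.Agent.H976R2 Pool.Agent.H976R2.Dir Finset
open Pool.Agent.N929.EX Pool.Agent.N929.EY
open scoped Classical

noncomputable section

/-- contacts in the bulk at two given times -/
theorem ct (h : S_MAIN) (h' : S_CON) : S_CT := by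
  obtain ⟨A, C, hA, hC, hu⟩ := use h
  obtain ⟨K, hK, hcon⟩ := h'
  have hl2 : 0 < Real.log 2 := Real.log_pos (by norm_num)
  refine ⟨A + 4 / Real.log 2 ^ 2, 4 * C * (K + 1 / Real.log 2 ^ 2), by positivity, by positivity,
    fun n i m l hn hm hml hli hlast => ?_⟩
  have hn2 : (2 : ℝ) ≤ n := by exact_mod_cast hn
  have hln : Real.log 2 ≤ Real.log n := Real.log_le_log (by norm_num) hn2
  have hll : Real.log 2 ^ 2 ≤ Real.log n ^ 2 := by gcongr
  have h4 : (4 : ℝ) ≤ 4 / Real.log 2 ^ 2 * Real.log n ^ 2 := by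
    rw [div_mul_eq_mul_div, le_div_iff₀ (by positivity)]
    linarith
  have hAl : 0 ≤ A * Real.log n ^ 2 := by positivity
  have hAm : A * Real.log n ^ 2 ≤ m := by
    rw [add_mul] at hm; linarith
  have hm4r : (4 : ℝ) ≤ m := by
    rw [add_mul] at hm; linarith
  have hm4 : 4 ≤ m := by exact_mod_cast hm4r
  have e0 : gl n (i, i + m) 0 = i := by simp [gl]
  have e1 : gl n (i, i + m) 1 = m := by simp [gl]
  have e2 : gl n (i, i + m) 2 = n - (i + m) := by simp [gl]
  have hle : ∀ s, m ≤ gl n (i, i + m) s := by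
    intro s
    fin_cases s
    · show m ≤ gl n (i, i + m) 0
      rw [e0]; omega
    · show m ≤ gl n (i, i + m) 1
      rw [e1]
    · show m ≤ gl n (i, i + m) 2
      rw [e2]; omega
  have hgl : ∀ s, A * Real.log n ^ 2 ≤ gl n (i, i + m) s := fun s =>
    hAm.trans (by exact_mod_cast hle s)
  have hl0 : (l : ℝ) ≤ gl n (i, i + m) 0 := by rw [e0]; exact_mod_cast hli
  have hl2' : (l : ℝ) ≤ gl n (i, i + m) 2 := by rw [e2]; exact_mod_cast (by omega : l ≤ n - (i + m))
  have hm2' : (m : ℝ) ≤ gl n (i, i + m) 2 := by exact_mod_cast hle 2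
  have key := hu n (i, i + m) hn (by simp; omega) (by simp; omega) hgl 0 1 2 (by decide)
    (by decide) (by decide) (min (l : ℝ) ((m : ℝ) ^ 2 / 16)) m (by positivity) (by positivity)
    ((min_le_left _ _).trans hl0) ((min_le_left _ _).trans hl2') (by rw [e1]) hm2'
    {p | |p.2.1 - p.1.1| + |p.2.2 - p.1.2| = 1} (K * Real.log n ^ 2) (by positivity) (by
      intro a b ha hb
      have ha1 : 64 * (a : ℝ) ^ 2 ≤ (m : ℝ) ^ 2 / 16 := ha.trans (min_le_right _ _)
      have ha2 : 32 * a ≤ m := by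
        have : (32 * (a : ℝ)) ^ 2 ≤ (m : ℝ) ^ 2 := by nlinarith
        have := abs_le_of_sq_le_sq this (by positivity)
        have := (abs_le.1 this).2
        exact_mod_cast this
      have hb2 : 8 * b ≤ m := two_le_of_sq (m := m) hb le_rfl
      have hal : 8 * a ≤ l := two_le_of_sq (m := l) ha (min_le_left _ _)
      rw [sum_card_filter]
      refine le_trans (sum_le_sum (fun w hw => ?_)) (hcon n (i + m / 2) hn)
      have tm : ∀ p ∈ range (2 * a + 1) ×ˢ range (2 * b + 1), _ := fun p hp =>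
        times 0 1 2 (by decide) (by decide) (by decide) (n := n) (T := (i, i + m))
          (by simp; omega) (by simp; omega) a b ((p.1 : ℤ) - a) ((p.2 : ℤ) - b)
          (by omega) (by have := mem_product.mp hp; simp only [mem_range] at this; omega)
          (by omega) (by have := mem_product.mp hp; simp only [mem_range] at this; omega)
          (by rw [e0]; omega) (by rw [e1]; omega) (by rw [e2]; omega)
      refine Nat.cast_le.2 (card_le_card_of_injOn (fun p : ℕ × ℕ =>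
        ((((i, i + m) : ℕ × ℕ).1 + 2 * dl 0 1 2 ((p.1 : ℤ) - a) ((p.2 : ℤ) - b) 0).toNat,
          (((i, i + m) : ℕ × ℕ).2 + 2 * dl 0 1 2 ((p.1 : ℤ) - a) ((p.2 : ℤ) - b) 0 +
               2 * dl 0 1 2 ((p.1 : ℤ) - a) ((p.2 : ℤ) - b) 1).toNat)) ?_ ?_)
      · intro p hp
        simp only [coe_filter, Set.mem_ofPred_eq] at hp ⊢
        obtain ⟨hp1, hp2⟩ := hp
        have t1 := tm p hp1
        have hp3 := mem_product.mp hp1
        simp only [mem_range] at hp3
        refine ⟨?_, ?_, ?_, hp2⟩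
        · rw [mem_product, mem_range, mem_range]
          constructor
          · have := t1.1.trans t1.2.1
            omega
          · omega
        · simp [dl]; omega
        · simp [dl]; omega
      · intro p hp p' hp' hE
        simp only [coe_filter, Set.mem_ofPred_eq] at hp hp'
        have t1 := tm p hp.1
        have t2 := tm p' hp'.1
        simp only [Prod.mk.injEq] at hE
        have q3 := toNat_inj t1.1 t2.1 hE.1
        have q4 := toNat_inj (t1.1.trans t1.2.1) (t2.1.trans t2.2.1) hE.2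
        have q5 := dl_inj 0 1 2 (by decide) (by decide) (by decide) ((p.1 : ℤ) - a)
          ((p.2 : ℤ) - b) ((p'.1 : ℤ) - a) ((p'.2 : ℤ) - b) (by linarith) (by linarith)
        exact Prod.ext (by omega) (by omega))
    ((SW n).filter (fun w => Ct i (i + m) w)) (fun w hw => by
      rw [mem_filter] at hw
      exact ⟨hw.1, hw.2⟩)
  have hX0 : (0 : ℝ) ≤ (((SW n).filter (fun w => Ct i (i + m) w)).card : ℝ) := Nat.cast_nonneg _
  have hc0 : (0 : ℝ) ≤ ((SW n).card : ℝ) := Nat.cast_nonneg _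
  have hmin : min (m : ℝ) (Real.sqrt l) ≤ 4 * Real.sqrt (min (l : ℝ) ((m : ℝ) ^ 2 / 16)) := by
    rcases le_total (l : ℝ) ((m : ℝ) ^ 2 / 16) with q | q
    · rw [min_eq_left q]
      have : 0 ≤ Real.sqrt l := Real.sqrt_nonneg _
      exact (min_le_right _ _).trans (by linarith)
    · rw [min_eq_right q, Real.sqrt_div (by positivity), Real.sqrt_sq (by positivity),
        show (16 : ℝ) = 4 ^ 2 by norm_num, Real.sqrt_sq (by norm_num)]
      exact (min_le_left _ _).trans (by linarith)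
  have h1 : (1 : ℝ) ≤ 1 / Real.log 2 ^ 2 * Real.log n ^ 2 := by
    rw [div_mul_eq_mul_div, le_div_iff₀ (by positivity)]
    linarith
  have hs0 : 0 ≤ Real.sqrt m := Real.sqrt_nonneg _
  calc Real.sqrt m * min (m : ℝ) (Real.sqrt l) *
        (((SW n).filter (fun w => Ct i (i + m) w)).card : ℝ)
      ≤ Real.sqrt m * (4 * Real.sqrt (min (l : ℝ) ((m : ℝ) ^ 2 / 16))) *
        (((SW n).filter (fun w => Ct i (i + m) w)).card : ℝ) := by gcongr
    _ = 4 * (Real.sqrt (min (l : ℝ) ((m : ℝ) ^ 2 / 16)) * Real.sqrt m *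
        (((SW n).filter (fun w => Ct i (i + m) w)).card : ℝ)) := by ring
    _ ≤ 4 * (C * (K * Real.log n ^ 2 + 1) * ((SW n).card : ℝ)) := by gcongr
    _ ≤ 4 * (C * (K * Real.log n ^ 2 + 1 / Real.log 2 ^ 2 * Real.log n ^ 2) *
        ((SW n).card : ℝ)) := by gcongr
    _ = _ := by ring

/-- the sum over a set of pairs of times of the numbers of walks with a contact at these times -/
theorem pairs {K : ℝ} (hcon : ∀ n t : ℕ, 2 ≤ n →
    ∑ w ∈ SW n, (((range (n + 1) ×ˢ range (n + 1)).filter (fun q : ℕ × ℕ => q.1 < t ∧ t < q.2 ∧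
      |(Lip.PP w q.2).1 - (Lip.PP w q.1).1| + |(Lip.PP w q.2).2 - (Lip.PP w q.1).2| = 1)).card : ℝ)
        ≤ K * Real.log n ^ 2 * ((SW n).card : ℝ)) {n : ℕ} (hn : 2 ≤ n) {q : ℕ} (hq : 1 ≤ q)
    (P : Finset (ℕ × ℕ)) (hP : ∀ p ∈ P, p.1 + q < p.2 ∧ p.2 ≤ n) :
    ∑ p ∈ P, (((SW n).filter (fun w => Ct p.1 p.2 w)).card : ℝ) ≤
      ((n / q + 2 : ℕ) : ℝ) * (K * Real.log n ^ 2 * ((SW n).card : ℝ)) := by
  rw [sum_card_filter]
  have h1 : ∀ w ∈ SW n, ((P.filter (fun p => Ct p.1 p.2 w)).card : ℝ) ≤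
      ∑ k ∈ range (n / q + 2), (((range (n + 1) ×ˢ range (n + 1)).filter
        (fun p : ℕ × ℕ => p.1 < q * k ∧ q * k < p.2 ∧
      |(Lip.PP w p.2).1 - (Lip.PP w p.1).1| + |(Lip.PP w p.2).2 - (Lip.PP w p.1).2| = 1)).card
        : ℝ) := by
    intro w hw
    have h2 : P.filter (fun p => Ct p.1 p.2 w) ⊆ (range (n / q + 2)).biUnion (fun k =>
        (range (n + 1) ×ˢ range (n + 1)).filter
        (fun p : ℕ × ℕ => p.1 < q * k ∧ q * k < p.2 ∧
        |(Lip.PP w p.2).1 - (Lip.PP w p.1).1| + |(Lip.PP w p.2).2 - (Lip.PP w p.1).2| = 1)) := by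
      intro p hp
      rw [mem_filter] at hp
      have h3 := hP p hp.1
      rw [mem_biUnion]
      refine ⟨p.1 / q + 1, ?_, ?_⟩
      · rw [mem_range]
        have : p.1 / q ≤ n / q := Nat.div_le_div_right (by omega)
        omega
      · rw [mem_filter, mem_product, mem_range, mem_range]
        have h4 : p.1 < q * (p.1 / q + 1) := Nat.lt_mul_div_succ _ (by omega)
        have h5 : q * (p.1 / q) ≤ p.1 := Nat.mul_div_le _ _
        have h6 : q * (p.1 / q + 1) = q * (p.1 / q) + q := by ring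
        refine ⟨⟨by omega, by omega⟩, h4, by omega, hp.2⟩
    have h3 := (card_le_card h2).trans card_biUnion_le
    exact_mod_cast h3
  refine (sum_le_sum h1).trans ?_
  rw [sum_comm]
  refine (sum_le_sum (fun k _ => hcon n (q * k) hn)).trans ?_
  rw [sum_const, card_range, nsmul_eq_mul]

/-- the number of walks with a contact at two times -/
def XC (n i j : ℕ) : ℝ := (((SW n).filter (fun w => Ct i j w)).card : ℝ)

theorem XC_nonneg (n i j : ℕ) : 0 ≤ XC n i j := Nat.cast_nonneg _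

theorem XC_le (n i j : ℕ) : XC n i j ≤ ((SW n).card : ℝ) := by
  unfold XC
  exact_mod_cast card_filter_le _ _

/-- one step of the smoothing, the reservoir being the last part -/
theorem stepR {C : ℝ} (hC : 0 < C) {n i m a : ℕ} (hi : 2 * a ≤ m + i)
    (h : ∀ Z : Set ((ℤ × ℤ) × (ℤ × ℤ)),
        (((SW n).filter (fun w => (Lip.PP w i, Lip.PP w (i + m)) ∈ Z)).card : ℝ) ≤
          C / (((a : ℝ) + 1) * (((0 : ℕ) : ℝ) + 1)) *
            ∑ k ∈ range (2 * a + 1), ∑ k' ∈ range (2 * 0 + 1),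
              (((SW n).filter (fun w =>
                (Lip.PP w ((i : ℤ) + 2 * dl 1 0 2 ((k : ℤ) - a) ((k' : ℤ) - (0 : ℕ)) 0).toNat,
                 Lip.PP w (((i + m : ℕ) : ℤ) + 2 * dl 1 0 2 ((k : ℤ) - a) ((k' : ℤ) - (0 : ℕ)) 0 +
                   2 * dl 1 0 2 ((k : ℤ) - a) ((k' : ℤ) - (0 : ℕ)) 1).toNat) ∈ Z)).card : ℝ) +
          ((SW n).card : ℝ) / (n : ℝ) ^ 10) :
    XC n i (i + m) ≤ C / ((a : ℝ) + 1) * ∑ k ∈ range (2 * a + 1), XC n i (i + m + 2 * k - 2 * a) +
      ((SW n).card : ℝ) / (n : ℝ) ^ 10 := by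
  obtain ⟨Z, hZ⟩ : ∃ Z : Set ((ℤ × ℤ) × (ℤ × ℤ)), Z = {p | |p.2.1 - p.1.1| + |p.2.2 - p.1.2| = 1} :=
    ⟨_, rfl⟩
  have h1 := h Z
  refine (le_of_eq (card_congr' n _ _ fun w => by rw [hZ]; exact Iff.rfl)).trans
    (h1.trans (le_of_eq ?_))
  congr 2
  · simp
  · refine sum_congr rfl fun k hk => ?_
    rw [mul_zero, zero_add, sum_range_one]
    refine card_congr' n _ _ fun w => ?_
    have e1 : ((i : ℤ) + 2 * dl 1 0 2 ((k : ℤ) - a) (((0 : ℕ) : ℤ) - (0 : ℕ)) 0).toNat = i := by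
      simp [dl]
    have e2 : (((i + m : ℕ) : ℤ) + 2 * dl 1 0 2 ((k : ℤ) - a) (((0 : ℕ) : ℤ) - (0 : ℕ)) 0 +
        2 * dl 1 0 2 ((k : ℤ) - a) (((0 : ℕ) : ℤ) - (0 : ℕ)) 1).toNat = i + m + 2 * k - 2 * a := by
      simp [dl]; omega
    rw [e1, e2, hZ]
    exact Iff.rfl

/-- one step of the smoothing, the reservoir being the first part -/
theorem stepL {C : ℝ} (hC : 0 < C) {n i m a : ℕ} (hi : 2 * a ≤ i)
    (h : ∀ Z : Set ((ℤ × ℤ) × (ℤ × ℤ)),
        (((SW n).filter (fun w => (Lip.PP w i, Lip.PP w (i + m)) ∈ Z)).card : ℝ) ≤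
          C / (((a : ℝ) + 1) * (((0 : ℕ) : ℝ) + 1)) *
            ∑ k ∈ range (2 * a + 1), ∑ k' ∈ range (2 * 0 + 1),
              (((SW n).filter (fun w =>
                (Lip.PP w ((i : ℤ) + 2 * dl 1 2 0 ((k : ℤ) - a) ((k' : ℤ) - (0 : ℕ)) 0).toNat,
                 Lip.PP w (((i + m : ℕ) : ℤ) + 2 * dl 1 2 0 ((k : ℤ) - a) ((k' : ℤ) - (0 : ℕ)) 0 +
                   2 * dl 1 2 0 ((k : ℤ) - a) ((k' : ℤ) - (0 : ℕ)) 1).toNat) ∈ Z)).card : ℝ) +
          ((SW n).card : ℝ) / (n : ℝ) ^ 10) :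
    XC n i (i + m) ≤ C / ((a : ℝ) + 1) * ∑ k ∈ range (2 * a + 1), XC n (i + 2 * a - 2 * k) (i + m) +
      ((SW n).card : ℝ) / (n : ℝ) ^ 10 := by
  obtain ⟨Z, hZ⟩ : ∃ Z : Set ((ℤ × ℤ) × (ℤ × ℤ)), Z = {p | |p.2.1 - p.1.1| + |p.2.2 - p.1.2| = 1} :=
    ⟨_, rfl⟩
  have h1 := h Z
  refine (le_of_eq (card_congr' n _ _ fun w => by rw [hZ]; exact Iff.rfl)).trans
    (h1.trans (le_of_eq ?_))
  congr 2
  · simp
  · refine sum_congr rfl fun k hk => ?_
    rw [mul_zero, zero_add, sum_range_one]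
    refine card_congr' n _ _ fun w => ?_
    have e1 : ((i : ℤ) + 2 * dl 1 2 0 ((k : ℤ) - a) (((0 : ℕ) : ℤ) - (0 : ℕ)) 0).toNat =
        i + 2 * a - 2 * k := by
      simp [dl]; omega
    have e2 : (((i + m : ℕ) : ℤ) + 2 * dl 1 2 0 ((k : ℤ) - a) (((0 : ℕ) : ℤ) - (0 : ℕ)) 0 +
        2 * dl 1 2 0 ((k : ℤ) - a) (((0 : ℕ) : ℤ) - (0 : ℕ)) 1).toNat = i + m := by
      simp [dl]; omega
    rw [e1, e2, hZ]
    exact Iff.rfl

/-- the mean number of contacts with a given time difference -/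
theorem ca (h : S_MAIN) (h' : S_CON) : S_CA := by
  obtain ⟨A, C, hA, hC, hmain⟩ := h
  obtain ⟨K, hK, hcon⟩ := h'
  have hl2 : 0 < Real.log 2 := Real.log_pos (by norm_num)
  have hC1 : 0 < C + 64 := by linarith
  refine ⟨A + 8 / Real.log 2 ^ 2, 2 * A + 3 / Real.log 2 ^ 2 + 36 * C * √(C + 64) * K,
    by positivity, by positivity, fun n m hn hm hmn => ?_⟩
  have hn2 : (2 : ℝ) ≤ n := by exact_mod_cast hn
  have hln : Real.log 2 ≤ Real.log n := Real.log_le_log (by norm_num) hn2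
  have hll : Real.log 2 ^ 2 ≤ Real.log n ^ 2 := by gcongr
  have h8 : (8 : ℝ) ≤ 8 / Real.log 2 ^ 2 * Real.log n ^ 2 := by
    rw [div_mul_eq_mul_div, le_div_iff₀ (by positivity)]
    linarith
  have h3 : (3 : ℝ) ≤ 3 / Real.log 2 ^ 2 * Real.log n ^ 2 := by
    rw [div_mul_eq_mul_div, le_div_iff₀ (by positivity)]
    linarith
  obtain ⟨L, hL⟩ : ∃ L : ℝ, L = A * Real.log n ^ 2 := ⟨_, rfl⟩
  have hL0 : 0 ≤ L := by rw [hL]; positivity
  have hLm : L ≤ m := by rw [add_mul, ← hL] at hm; linarith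
  have hm8r : (8 : ℝ) ≤ m := by rw [add_mul, ← hL] at hm; linarith
  have hm8 : 8 ≤ m := by exact_mod_cast hm8r
  have hc0 : (0 : ℝ) ≤ ((SW n).card : ℝ) := Nat.cast_nonneg _
  obtain ⟨a, ha1, ha2⟩ := fl hC1 (g := (m : ℝ) / 2) (by positivity)
  have ha3 : C * (a : ℝ) ^ 2 ≤ (m : ℝ) / 2 ∧ 64 * (a : ℝ) ^ 2 ≤ (m : ℝ) / 2 := by
    constructor
    · nlinarith [sq_nonneg (a : ℝ)]
    · nlinarith [sq_nonneg (a : ℝ), mul_nonneg hC.le (sq_nonneg (a : ℝ))]
  have ha8 : 8 * a ≤ m := two_le_of_sq (m := m) ha3.2 (by linarith)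
  -- the three ranges
  obtain ⟨B, hB⟩ : ∃ B : ℕ → Prop, B = fun i : ℕ => L ≤ i ∧ L ≤ ((n - m - i : ℕ) : ℝ) := ⟨_, rfl⟩
  obtain ⟨E, hE⟩ : ∃ E : ℝ, E = K * Real.log n ^ 2 * ((SW n).card : ℝ) := ⟨_, rfl⟩
  have hE0 : 0 ≤ E := by rw [hE]; positivity
  obtain ⟨q, hq⟩ : ∃ q, q = m / 4 := ⟨_, rfl⟩
  -- right reservoir
  have hR : ∑ i ∈ (range (n - m + 1)).filter (fun i => B i ∧ 2 * i ≤ n - m), XC n i (i + m) ≤
      C / ((a : ℝ) + 1) * (((n / q + 2 : ℕ) : ℝ) * E) +
        ((range (n - m + 1)).filter (fun i => B i ∧ 2 * i ≤ n - m)).card *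
          (((SW n).card : ℝ) / (n : ℝ) ^ 10) := by
    have hstep : ∀ i ∈ (range (n - m + 1)).filter (fun i => B i ∧ 2 * i ≤ n - m),
        XC n i (i + m) ≤ C / ((a : ℝ) + 1) * ∑ k ∈ range (2 * a + 1),
          XC n i (i + m + 2 * k - 2 * a) + ((SW n).card : ℝ) / (n : ℝ) ^ 10 := by
      intro i hi
      rw [mem_filter, mem_range, hB] at hi
      obtain ⟨hi1, ⟨hi2, hi3⟩, hi4⟩ := hi
      have e0 : gl n (i, i + m) 0 = i := by simp [gl]
      have e1 : gl n (i, i + m) 1 = m := by simp [gl]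
      have e2 : gl n (i, i + m) 2 = n - (i + m) := by simp [gl]
      have e3 : n - m - i = n - (i + m) := by omega
      have hi5 : (m : ℝ) / 2 ≤ ((n - (i + m) : ℕ) : ℝ) := by
        have : m ≤ 2 * (n - (i + m)) := by omega
        have : (m : ℝ) ≤ 2 * ((n - (i + m) : ℕ) : ℝ) := by exact_mod_cast this
        linarith
      refine stepR hC (by omega) ?_
      refine hmain n (i, i + m) hn (by simp; omega) (by simp; omega) ?_ 1 0 2 (by decide)
        (by decide) (by decide) a 0 ?_ ?_ ?_ ?_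
      · intro s
        rw [← hL]
        fin_cases s
        · show L ≤ (gl n (i, i + m) 0 : ℝ)
          rw [e0]; exact hi2
        · show L ≤ (gl n (i, i + m) 1 : ℝ)
          rw [e1]; exact hLm
        · show L ≤ (gl n (i, i + m) 2 : ℝ)
          rw [e2, ← e3]; exact hi3
      · rw [e1]; linarith [ha3.1]
      · rw [e2]; linarith [ha3.1]
      · simp
      · simp
    refine (sum_le_sum hstep).trans ?_
    rw [sum_add_distrib, sum_const, nsmul_eq_mul, ← mul_sum]
    refine add_le_add_left (mul_le_mul_of_nonneg_left ?_ (by positivity)) _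
    rw [← sum_product']
    have hinj : Set.InjOn (fun p : ℕ × ℕ => (p.1, p.1 + m + 2 * p.2 - 2 * a))
        (((range (n - m + 1)).filter (fun i => B i ∧ 2 * i ≤ n - m)) ×ˢ range (2 * a + 1) :
          Finset (ℕ × ℕ)) := by
      intro p hp p' hp' hpp
      rw [Finset.mem_coe, mem_product, mem_filter, mem_range, mem_range] at hp hp'
      simp only [Prod.mk.injEq] at hpp
      exact Prod.ext (by omega) (by omega)
    have h5 := pairs hcon hn (q := q) (by omega)
      ((((range (n - m + 1)).filter (fun i => B i ∧ 2 * i ≤ n - m)) ×ˢ range (2 * a + 1)).image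
        (fun p : ℕ × ℕ => (p.1, p.1 + m + 2 * p.2 - 2 * a))) (by
        intro p hp
        rw [mem_image] at hp
        obtain ⟨p', hp', rfl⟩ := hp
        rw [mem_product, mem_filter, mem_range, mem_range] at hp'
        simp only
        constructor <;> omega)
    rw [sum_image hinj] at h5
    rw [hE]
    exact h5
  -- left reservoir
  have hLL : ∑ i ∈ (range (n - m + 1)).filter (fun i => B i ∧ ¬ 2 * i ≤ n - m), XC n i (i + m) ≤
      C / ((a : ℝ) + 1) * (((n / q + 2 : ℕ) : ℝ) * E) +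
        ((range (n - m + 1)).filter (fun i => B i ∧ ¬ 2 * i ≤ n - m)).card *
          (((SW n).card : ℝ) / (n : ℝ) ^ 10) := by
    have hstep : ∀ i ∈ (range (n - m + 1)).filter (fun i => B i ∧ ¬ 2 * i ≤ n - m),
        XC n i (i + m) ≤ C / ((a : ℝ) + 1) * ∑ k ∈ range (2 * a + 1),
          XC n (i + 2 * a - 2 * k) (i + m) + ((SW n).card : ℝ) / (n : ℝ) ^ 10 := by
      intro i hi
      rw [mem_filter, mem_range, hB] at hi
      obtain ⟨hi1, ⟨hi2, hi3⟩, hi4⟩ := hi
      have e0 : gl n (i, i + m) 0 = i := by simp [gl]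
      have e1 : gl n (i, i + m) 1 = m := by simp [gl]
      have e2 : gl n (i, i + m) 2 = n - (i + m) := by simp [gl]
      have e3 : n - m - i = n - (i + m) := by omega
      have hi6 : 0 < n - (i + m) := by
        have h1 : (0 : ℝ) < ((n - m - i : ℕ) : ℝ) := by
          refine lt_of_lt_of_le ?_ hi3
          rw [hL]
          have : 0 < Real.log n := lt_of_lt_of_le hl2 hln
          positivity
        rw [e3] at h1
        exact_mod_cast h1
      have hi5 : (m : ℝ) / 2 ≤ (i : ℝ) := by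
        have : m ≤ 2 * i := by omega
        have : (m : ℝ) ≤ 2 * (i : ℝ) := by exact_mod_cast this
        linarith
      refine stepL hC (by omega) ?_
      refine hmain n (i, i + m) hn (by simp; omega) (by simp; omega) ?_ 1 2 0 (by decide)
        (by decide) (by decide) a 0 ?_ ?_ ?_ ?_
      · intro s
        rw [← hL]
        fin_cases s
        · show L ≤ (gl n (i, i + m) 0 : ℝ)
          rw [e0]; exact hi2
        · show L ≤ (gl n (i, i + m) 1 : ℝ)
          rw [e1]; exact hLm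
        · show L ≤ (gl n (i, i + m) 2 : ℝ)
          rw [e2, ← e3]; exact hi3
      · rw [e1]; linarith [ha3.1]
      · rw [e0]; linarith [ha3.1]
      · simp
      · simp
    refine (sum_le_sum hstep).trans ?_
    rw [sum_add_distrib, sum_const, nsmul_eq_mul, ← mul_sum]
    refine add_le_add_left (mul_le_mul_of_nonneg_left ?_ (by positivity)) _
    rw [← sum_product']
    have hinj : Set.InjOn (fun p : ℕ × ℕ => (p.1 + 2 * a - 2 * p.2, p.1 + m))
        (((range (n - m + 1)).filter (fun i => B i ∧ ¬ 2 * i ≤ n - m)) ×ˢ range (2 * a + 1) :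
          Finset (ℕ × ℕ)) := by
      intro p hp p' hp' hpp
      rw [Finset.mem_coe, mem_product, mem_filter, mem_range, mem_range] at hp hp'
      simp only [Prod.mk.injEq] at hpp
      exact Prod.ext (by omega) (by omega)
    have h5 := pairs hcon hn (q := q) (by omega)
      ((((range (n - m + 1)).filter (fun i => B i ∧ ¬ 2 * i ≤ n - m)) ×ˢ range (2 * a + 1)).image
        (fun p : ℕ × ℕ => (p.1 + 2 * a - 2 * p.2, p.1 + m))) (by
        intro p hp
        rw [mem_image] at hp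
        obtain ⟨p', hp', rfl⟩ := hp
        rw [mem_product, mem_filter, mem_range, mem_range] at hp'
        simp only
        constructor <;> omega)
    rw [sum_image hinj] at h5
    rw [hE]
    exact h5
  -- boundary
  have hBd : ∑ i ∈ (range (n - m + 1)).filter (fun i => ¬ B i), XC n i (i + m) ≤
      (2 * (L + 1)) * ((SW n).card : ℝ) := by
    refine (sum_le_sum (fun i _ => XC_le n i (i + m))).trans ?_
    rw [sum_const, nsmul_eq_mul]
    refine mul_le_mul_of_nonneg_right ?_ hc0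
    have h5 : (range (n - m + 1)).filter (fun i => ¬ B i) ⊆ range ⌈L⌉₊ ∪
        (range (n - m + 1)).filter (fun i => n - m - i < ⌈L⌉₊) := by
      intro i hi
      rw [mem_filter, hB] at hi
      rw [mem_union, mem_range, mem_filter]
      by_cases h6 : L ≤ i
      · right
        refine ⟨hi.1, ?_⟩
        have h7 : ¬ L ≤ ((n - m - i : ℕ) : ℝ) := fun h8 => hi.2 ⟨h6, h8⟩
        exact Nat.lt_ceil.2 (not_le.1 h7)
      · left
        exact Nat.lt_ceil.2 (not_le.1 h6)
    have h6 : ((range (n - m + 1)).filter (fun i => n - m - i < ⌈L⌉₊)).card ≤ ⌈L⌉₊ := by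
      have h7 : ((range (n - m + 1)).filter (fun i => n - m - i < ⌈L⌉₊)).card ≤
          (range ⌈L⌉₊).card := by
        refine card_le_card_of_injOn (fun i => n - m - i) ?_ ?_
        · intro i hi
          rw [Finset.mem_coe, mem_filter] at hi
          rw [Finset.mem_coe, mem_range]
          exact hi.2
        · intro i hi j hj hij
          rw [Finset.mem_coe, mem_filter, mem_range] at hi hj
          simp only at hij
          omega
      rwa [card_range] at h7
    have h7 : (((range (n - m + 1)).filter (fun i => ¬ B i)).card : ℝ) ≤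
        (⌈L⌉₊ : ℝ) + (⌈L⌉₊ : ℝ) := by
      have h8 := (card_le_card h5).trans (card_union_le _ _)
      rw [card_range] at h8
      exact_mod_cast h8.trans (by omega)
    have h8 := Nat.ceil_lt_add_one hL0
    linarith
  -- the total
  have hsplit : ∑ i ∈ range (n - m + 1), (((SW n).filter (fun w => Ct i (i + m) w)).card : ℝ) =
      ∑ i ∈ (range (n - m + 1)).filter (fun i => B i ∧ 2 * i ≤ n - m), XC n i (i + m) +
      ∑ i ∈ (range (n - m + 1)).filter (fun i => B i ∧ ¬ 2 * i ≤ n - m), XC n i (i + m) +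
      ∑ i ∈ (range (n - m + 1)).filter (fun i => ¬ B i), XC n i (i + m) := by
    rw [← sum_filter_add_sum_filter_not (range (n - m + 1)) B]
    congr 1
    rw [← sum_filter_add_sum_filter_not ((range (n - m + 1)).filter B) (fun i => 2 * i ≤ n - m),
      filter_filter, filter_filter]
    rfl
  rw [hsplit]
  have hcards : (((range (n - m + 1)).filter (fun i => B i ∧ 2 * i ≤ n - m)).card : ℝ) +
      (((range (n - m + 1)).filter (fun i => B i ∧ ¬ 2 * i ≤ n - m)).card : ℝ) ≤ n := by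
    have h5 : ((range (n - m + 1)).filter (fun i => B i ∧ 2 * i ≤ n - m)).card +
      ((range (n - m + 1)).filter (fun i => B i ∧ ¬ 2 * i ≤ n - m)).card ≤ n := by
      rw [← filter_filter, ← filter_filter]
      have h6 := card_filter_add_card_filter_not (s := (range (n - m + 1)).filter B)
        (fun i => 2 * i ≤ n - m)
      rw [h6]
      have h7 := card_filter_le (range (n - m + 1)) B
      rw [card_range] at h7
      omega
    exact_mod_cast h5
  have herr : (n : ℝ) * (((SW n).card : ℝ) / (n : ℝ) ^ 10) ≤ ((SW n).card : ℝ) := by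
    rw [mul_div_assoc', div_le_iff₀ (by positivity), mul_comm]
    refine mul_le_mul_of_nonneg_left ?_ hc0
    exact le_self_pow₀ (by linarith) (by norm_num)
  have hcnt : ((n / q + 2 : ℕ) : ℝ) ≤ 9 * ((n : ℝ) / m) := by
    have hq8 : m ≤ 8 * q := by omega
    have hq8r : (m : ℝ) ≤ 8 * q := by exact_mod_cast hq8
    have hq0 : (0 : ℝ) < q := by linarith
    have hm0 : (0 : ℝ) < m := by linarith
    have h5 : ((n / q : ℕ) : ℝ) ≤ (n : ℝ) / q := Nat.cast_div_le
    have h6 : (n : ℝ) / q ≤ 8 * ((n : ℝ) / m) := by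
      rw [div_le_iff₀ hq0, mul_div_assoc', div_mul_eq_mul_div, le_div_iff₀ hm0]
      nlinarith
    have h7 : (2 : ℝ) ≤ (n : ℝ) / m := by
      rw [le_div_iff₀ hm0]
      exact_mod_cast hmn
    push_cast
    linarith
  have hm0 : (0 : ℝ) < m := by linarith
  have hsm : 0 < √(m : ℝ) := Real.sqrt_pos.2 hm0
  have hinv : C / ((a : ℝ) + 1) ≤ 2 * C * √(C + 64) / √(m : ℝ) := by
    rw [div_le_div_iff₀ (by positivity) hsm]
    have h5 : √(m : ℝ) ≤ 2 * √((m : ℝ) / 2) := by
      have : √(m : ℝ) = √2 * √((m : ℝ) / 2) := by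
        rw [← Real.sqrt_mul (by norm_num)]
        congr 1
        ring
      rw [this]
      have h6 : √(2 : ℝ) ≤ 2 := by
        rw [Real.sqrt_le_left (by norm_num)]; norm_num
      gcongr
    calc C * √(m : ℝ) ≤ C * (2 * √((m : ℝ) / 2)) := by gcongr
      _ ≤ C * (2 * (√(C + 64) * (a + 1))) := by gcongr
      _ = _ := by ring
  have hmainterm : C / ((a : ℝ) + 1) * (((n / q + 2 : ℕ) : ℝ) * E) ≤
      18 * C * √(C + 64) * K * Real.log n ^ 2 * ((n : ℝ) / (m * √(m : ℝ))) *
        ((SW n).card : ℝ) := by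
    calc C / ((a : ℝ) + 1) * (((n / q + 2 : ℕ) : ℝ) * E)
        ≤ 2 * C * √(C + 64) / √(m : ℝ) * (9 * ((n : ℝ) / m) * E) := by gcongr
      _ = _ := by
        rw [hE]
        field_simp
        ring
  have hnm0 : 0 ≤ (n : ℝ) / (m * √(m : ℝ)) := by positivity
  have hlogL : 2 * (L + 1) + 1 ≤ (2 * A + 3 / Real.log 2 ^ 2) * Real.log n ^ 2 := by
    rw [add_mul, mul_assoc, ← hL]
    linarith
  have hS1 : (((range (n - m + 1)).filter (fun i => B i ∧ 2 * i ≤ n - m)).card : ℝ) *
          (((SW n).card : ℝ) / (n : ℝ) ^ 10) +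
      (((range (n - m + 1)).filter (fun i => B i ∧ ¬ 2 * i ≤ n - m)).card : ℝ) *
          (((SW n).card : ℝ) / (n : ℝ) ^ 10) ≤ ((SW n).card : ℝ) := by
    rw [← add_mul]
    refine le_trans ?_ herr
    gcongr
  have hfin : 2 * (18 * C * √(C + 64) * K * Real.log n ^ 2 * ((n : ℝ) / (m * √(m : ℝ))) *
        ((SW n).card : ℝ)) + (2 * (L + 1) + 1) * ((SW n).card : ℝ) ≤
      (2 * A + 3 / Real.log 2 ^ 2 + 36 * C * √(C + 64) * K) * Real.log n ^ 2 *
        (1 + (n : ℝ) / (m * √(m : ℝ))) * ((SW n).card : ℝ) := by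
    have h5 : (2 * (L + 1) + 1) * ((SW n).card : ℝ) ≤
        (2 * A + 3 / Real.log 2 ^ 2) * Real.log n ^ 2 * ((SW n).card : ℝ) := by gcongr
    have h6 : 0 ≤ (2 * A + 3 / Real.log 2 ^ 2) * Real.log n ^ 2 *
        ((n : ℝ) / (m * √(m : ℝ))) * ((SW n).card : ℝ) := by positivity
    have h7 : 0 ≤ 36 * C * √(C + 64) * K * Real.log n ^ 2 * ((SW n).card : ℝ) := by positivity
    nlinarith
  linarith

end

end Pool.Agent.N340.EY
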